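import Pool.Agent.H964.DP.Stm
import Pool.Graph.R_pool_sql_team_seeded_3997aac3.Q189.GB1

/-!
# Lower bound for the mean of the logarithm of a sum of exponentials of Gaussian variables
(project DP of helper964, part GLOW, helper401)
-/

set_option autoImplicit false

open MeasureTheory ProbabilityTheory Filter Finset
open scoped InnerProductSpace ENNReal NNReal

namespace Pool.Agent.H401.DP

open Pool.Agent.H460BZ (EE map_inner)

theorem exp_inner {m : ℕ} (S : EE m) :
    Integrable (fun x : EE m => Real.exp ⟪S, x⟫_ℝ) (stdGaussian (EE m)) ∧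
    ∫ x, Real.exp ⟪S, x⟫_ℝ ∂(stdGaussian (EE m)) = Real.exp (‖S‖ ^ 2 / 2) := by
  have hm := map_inner S
  have hX : Measurable (fun x : EE m => ⟪S, x⟫_ℝ) := by fun_prop
  constructor
  · have h1 := integrable_exp_mul_gaussianReal (μ := 0) (v := (‖S‖ ^ 2).toNNReal) 1
    rw [← hm] at h1
    rw [integrable_map_measure (by fun_prop) hX.aemeasurable] at h1
    simp only [Function.comp_def, one_mul] at h1
    exact h1
  · have h2 := mgf_gaussianReal hm 1
    unfold mgf at h2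
    simp only [one_mul, mul_one, one_pow, zero_add] at h2
    rw [Real.coe_toNNReal _ (by positivity)] at h2
    exact h2

section fam

variable {m : ℕ} {ι : Type} (a : ι → EE m) (R : Finset ι) (p : ℝ)

/-- the exponential weights -/
noncomputable def ee (τ : ι) (g : EE m) : ℝ := Real.exp (⟪a τ, g⟫_ℝ - ‖a τ‖ ^ 2 / 2)

/-- the partition function -/
noncomputable def ZZ (g : EE m) : ℝ := p * ∑ τ ∈ R, ee a τ g

/-- the weighted mean of the vectors -/
noncomputable def VV (g : EE m) : EE m := p • ∑ τ ∈ R, ee a τ g • a τ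

theorem ee_pos (τ : ι) (g : EE m) : 0 < ee a τ g := Real.exp_pos _

theorem ee_cont (τ : ι) : Continuous (ee a τ) := by
  unfold ee
  fun_prop

theorem ee_int (τ : ι) : Integrable (ee a τ) (stdGaussian (EE m)) ∧
    ∫ g, ee a τ g ∂(stdGaussian (EE m)) = 1 := by
  have h := exp_inner (a τ)
  have e : ∀ g : EE m, ee a τ g = Real.exp (-(‖a τ‖ ^ 2 / 2)) * Real.exp ⟪a τ, g⟫_ℝ := by
    intro g
    unfold ee
    rw [← Real.exp_add]
    congr 1
    ring
  have e' : ee a τ = fun g => Real.exp (-(‖a τ‖ ^ 2 / 2)) * Real.exp ⟪a τ, g⟫_ℝ := funext e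
  rw [e']
  refine ⟨h.1.const_mul _, ?_⟩
  rw [integral_const_mul, h.2, ← Real.exp_add, neg_add_cancel, Real.exp_zero]

theorem ee2_int (τ τ' : ι) : Integrable (fun g => ee a τ g * ee a τ' g) (stdGaussian (EE m)) ∧
    ∫ g, ee a τ g * ee a τ' g ∂(stdGaussian (EE m)) = Real.exp ⟪a τ, a τ'⟫_ℝ := by
  have h := exp_inner (a τ + a τ')
  have e : (fun g : EE m => ee a τ g * ee a τ' g) = fun g =>
      Real.exp (-(‖a τ‖ ^ 2 / 2 + ‖a τ'‖ ^ 2 / 2)) * Real.exp ⟪a τ + a τ', g⟫_ℝ := by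
    ext g
    unfold ee
    rw [← Real.exp_add, ← Real.exp_add, inner_add_left]
    congr 1
    ring
  rw [e]
  refine ⟨h.1.const_mul _, ?_⟩
  rw [integral_const_mul, h.2, ← Real.exp_add]
  congr 1
  have h2 := norm_add_sq_real (a τ) (a τ')
  rw [h2]
  ring

theorem ZZ_cont : Continuous (ZZ a R p) := by
  unfold ZZ
  have := fun τ => ee_cont a τ
  fun_prop

theorem VV_cont : Continuous (VV a R p) := by
  unfold VV
  have := fun τ => ee_cont a τ
  fun_prop

theorem ZZ_int : Integrable (ZZ a R p) (stdGaussian (EE m)) ∧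
    ∫ g, ZZ a R p g ∂(stdGaussian (EE m)) = p * R.card := by
  unfold ZZ
  refine ⟨(integrable_finset_sum _ fun τ _ => (ee_int a τ).1).const_mul _, ?_⟩
  rw [integral_const_mul, integral_finset_sum _ fun τ _ => (ee_int a τ).1]
  rw [Finset.sum_congr rfl fun τ _ => (ee_int a τ).2, Finset.sum_const, nsmul_eq_mul, mul_one]

theorem ZZ2_int : Integrable (fun g => ZZ a R p g ^ 2) (stdGaussian (EE m)) ∧
    ∫ g, ZZ a R p g ^ 2 ∂(stdGaussian (EE m)) =
      p ^ 2 * ∑ τ ∈ R, ∑ τ' ∈ R, Real.exp ⟪a τ, a τ'⟫_ℝ := by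
  have e : (fun g => ZZ a R p g ^ 2) = fun g =>
      p ^ 2 * ∑ τ ∈ R, ∑ τ' ∈ R, ee a τ g * ee a τ' g := by
    ext g
    unfold ZZ
    rw [mul_pow, sq (∑ τ ∈ R, ee a τ g), Finset.sum_mul_sum]
  rw [e]
  have hi : ∀ τ ∈ R, Integrable (fun g => ∑ τ' ∈ R, ee a τ g * ee a τ' g)
      (stdGaussian (EE m)) := fun τ _ => integrable_finset_sum _ fun τ' _ => (ee2_int a τ τ').1
  refine ⟨(integrable_finset_sum _ hi).const_mul _, ?_⟩
  rw [integral_const_mul, integral_finset_sum _ hi]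
  congr 1
  refine Finset.sum_congr rfl fun τ _ => ?_
  rw [integral_finset_sum _ fun τ' _ => (ee2_int a τ τ').1]
  exact Finset.sum_congr rfl fun τ' _ => (ee2_int a τ τ').2

theorem VV2_int : Integrable (fun g => ‖VV a R p g‖ ^ 2) (stdGaussian (EE m)) ∧
    ∫ g, ‖VV a R p g‖ ^ 2 ∂(stdGaussian (EE m)) =
      p ^ 2 * ∑ τ ∈ R, ∑ τ' ∈ R, ⟪a τ, a τ'⟫_ℝ * Real.exp ⟪a τ, a τ'⟫_ℝ := by
  have e : (fun g => ‖VV a R p g‖ ^ 2) = fun g =>
      p ^ 2 * ∑ τ ∈ R, ∑ τ' ∈ R, ⟪a τ, a τ'⟫_ℝ * (ee a τ g * ee a τ' g) := by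
    ext g
    unfold VV
    rw [norm_smul, mul_pow, Real.norm_eq_abs, sq_abs, ← real_inner_self_eq_norm_sq, sum_inner]
    congr 1
    refine Finset.sum_congr rfl fun τ _ => ?_
    rw [inner_sum]
    refine Finset.sum_congr rfl fun τ' _ => ?_
    rw [real_inner_smul_left, real_inner_smul_right]
    ring
  rw [e]
  have hi' : ∀ τ τ', Integrable (fun g => ⟪a τ, a τ'⟫_ℝ * (ee a τ g * ee a τ' g))
      (stdGaussian (EE m)) := fun τ τ' => (ee2_int a τ τ').1.const_mul _
  have hi : ∀ τ ∈ R, Integrable (fun g => ∑ τ' ∈ R, ⟪a τ, a τ'⟫_ℝ * (ee a τ g * ee a τ' g))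
      (stdGaussian (EE m)) := fun τ _ => integrable_finset_sum _ fun τ' _ => hi' τ τ'
  refine ⟨(integrable_finset_sum _ hi).const_mul _, ?_⟩
  rw [integral_const_mul, integral_finset_sum _ hi]
  congr 1
  refine Finset.sum_congr rfl fun τ _ => ?_
  rw [integral_finset_sum _ fun τ' _ => hi' τ τ']
  refine Finset.sum_congr rfl fun τ' _ => ?_
  rw [integral_const_mul, (ee2_int a τ τ').2]

/-- convexity of the logarithm of the partition function -/
theorem ZZ_convex (hp : 0 < p) (hR : R.Nonempty) (g g' : EE m) :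
    Real.exp (⟪VV a R p g, g' - g⟫_ℝ / ZZ a R p g) * ZZ a R p g ≤ ZZ a R p g' := by
  have hZ : 0 < ZZ a R p g := by
    unfold ZZ
    exact mul_pos hp (Finset.sum_pos (fun τ _ => ee_pos a τ g) hR)
  set c : ℝ := ⟪VV a R p g, g' - g⟫_ℝ / ZZ a R p g with hc
  have h1 : ∀ τ, ee a τ g' = ee a τ g * Real.exp ⟪a τ, g' - g⟫_ℝ := by
    intro τ
    unfold ee
    rw [← Real.exp_add, inner_sub_right]
    congr 1
    ring
  have h2 : ∀ x : ℝ, Real.exp c * (1 + x - c) ≤ Real.exp x := by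
    intro x
    have h3 := Real.add_one_le_exp (x - c)
    have h4 : Real.exp x = Real.exp c * Real.exp (x - c) := by
      rw [← Real.exp_add]
      congr 1
      ring
    rw [h4]
    exact mul_le_mul_of_nonneg_left (by linarith) (Real.exp_pos c).le
  have h5 : ⟪VV a R p g, g' - g⟫_ℝ = p * ∑ τ ∈ R, ee a τ g * ⟪a τ, g' - g⟫_ℝ := by
    unfold VV
    rw [real_inner_smul_left, sum_inner]
    congr 1
    exact Finset.sum_congr rfl fun τ _ => real_inner_smul_left _ _ _
  have h6 : c * ZZ a R p g = ⟪VV a R p g, g' - g⟫_ℝ := by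
    rw [hc]
    field_simp
  calc Real.exp c * ZZ a R p g
      = p * ∑ τ ∈ R, ee a τ g * (Real.exp c * (1 + ⟪a τ, g' - g⟫_ℝ - c)) := by
        have h7 : p * ∑ τ ∈ R, ee a τ g * (Real.exp c * (1 + ⟪a τ, g' - g⟫_ℝ - c)) =
            Real.exp c * ((1 - c) * (p * ∑ τ ∈ R, ee a τ g) +
              p * ∑ τ ∈ R, ee a τ g * ⟪a τ, g' - g⟫_ℝ) := by
          rw [Finset.mul_sum, Finset.mul_sum, Finset.mul_sum, Finset.mul_sum,
            ← Finset.sum_add_distrib, Finset.mul_sum]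
          refine Finset.sum_congr rfl fun τ _ => ?_
          ring
        rw [h7, ← h5, ← h6]
        unfold ZZ
        ring
    _ ≤ p * ∑ τ ∈ R, ee a τ g * Real.exp ⟪a τ, g' - g⟫_ℝ := by
        refine mul_le_mul_of_nonneg_left (Finset.sum_le_sum fun τ _ => ?_) hp.le
        exact mul_le_mul_of_nonneg_left (h2 _) (ee_pos a τ g).le
    _ = ZZ a R p g' := by
        unfold ZZ
        simp only [h1]

end fam

/-- the mean distance to a closed set of positive Gaussian measure -/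
theorem infDist_mean {m : ℕ} {K : Set (EE m)} (hK : IsClosed K) {q : ℝ} (hq0 : 0 < q)
    (hq : q ≤ (stdGaussian (EE m)).real K) :
    Integrable (fun x => Metric.infDist x K) (stdGaussian (EE m)) ∧
      ∫ x, Metric.infDist x K ∂(stdGaussian (EE m)) ≤ 1 / q := by
  have h1 := Q189.GB.maurey hK
  set μ := stdGaussian (EE m) with hμ
  have hKpos : 0 < μ K := by
    have h2 : 0 < (μ K).toReal := hq0.trans_le hq
    exact ENNReal.toReal_pos_iff.1 h2 |>.1
  have hKfin : μ K ≠ ∞ := measure_ne_top _ _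
  have h2 : ∫⁻ x, ENNReal.ofReal (Real.exp (Metric.infDist x K ^ 2 / 4)) ∂μ ≤ (μ K)⁻¹ := by
    rw [ENNReal.le_inv_iff_mul_le]
    exact h1
  have h3 : (μ K)⁻¹ ≤ ENNReal.ofReal (1 / q) := by
    rw [one_div, ENNReal.ofReal_inv_of_pos hq0]
    refine ENNReal.inv_le_inv.2 ?_
    rw [← ENNReal.ofReal_toReal hKfin]
    exact ENNReal.ofReal_le_ofReal hq
  have h4 : ∀ x : EE m, Metric.infDist x K ≤ Real.exp (Metric.infDist x K ^ 2 / 4) := by
    intro x
    have h5 := Real.add_one_le_exp (Metric.infDist x K ^ 2 / 4)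
    nlinarith [sq_nonneg (Metric.infDist x K / 2 - 1)]
  have h6 : ∫⁻ x, ENNReal.ofReal (Metric.infDist x K) ∂μ ≤ ENNReal.ofReal (1 / q) := by
    refine le_trans (lintegral_mono fun x => ENNReal.ofReal_le_ofReal (h4 x)) (h2.trans h3)
  have hmeas : Measurable fun x : EE m => Metric.infDist x K := by fun_prop
  have h7 : Integrable (fun x => Metric.infDist x K) μ := by
    refine ⟨hmeas.aestronglyMeasurable, ?_⟩
    rw [hasFiniteIntegral_iff_ofReal (Eventually.of_forall fun x => Metric.infDist_nonneg)]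
    exact h6.trans_lt ENNReal.ofReal_lt_top
  refine ⟨h7, ?_⟩
  have h8 := ofReal_integral_eq_lintegral_ofReal h7
    (Eventually.of_forall fun x => Metric.infDist_nonneg)
  rw [← h8] at h6
  exact (ENNReal.ofReal_le_ofReal_iff (by positivity)).1 h6

/-- the lower bound -/
theorem glow {M δ : ℝ} (hM : 1 ≤ M) (hδ : 0 < δ) {m : ℕ} {ι : Type} (a : ι → EE m)
    (R : Finset ι) {p : ℝ} (hp : 0 < p) (h1 : 1 / 2 ≤ p * R.card) (h2 : p * R.card ≤ 1)
    (h3 : p ^ 2 * ∑ τ ∈ R, ∑ τ' ∈ R, Real.exp ((1 + δ) * ⟪a τ, a τ'⟫_ℝ) ≤ M)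
    (F : EE m → ℝ) (hF : ∀ g, Real.log (ZZ a R p g) ≤ F g) :
    -(Real.log 4 + √(512 * M * (1 + M) / δ) * (32 * (1 + M))) ≤
      ∫ g, F g ∂(stdGaussian (EE m)) := by
  set μ := stdGaussian (EE m) with hμ
  have hR : R.Nonempty := by
    by_contra h
    rw [Finset.not_nonempty_iff_eq_empty] at h
    rw [h, Finset.card_empty, Nat.cast_zero, mul_zero] at h1
    norm_num at h1
  have hZpos : ∀ g, 0 < ZZ a R p g := fun g => by
    unfold ZZ
    exact mul_pos hp (Finset.sum_pos (fun τ _ => ee_pos a τ g) hR)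
  -- second moments
  have hZ2 : ∫ g, ZZ a R p g ^ 2 ∂μ ≤ 1 + M := by
    rw [(ZZ2_int a R p).2]
    have h4 : ∀ x : ℝ, Real.exp x ≤ 1 + Real.exp ((1 + δ) * x) := by
      intro x
      rcases le_total 0 x with h | h
      · have h5 : Real.exp x ≤ Real.exp ((1 + δ) * x) := Real.exp_le_exp.2 (by nlinarith)
        linarith
      · have h5 : Real.exp x ≤ 1 := Real.exp_le_one_iff.2 h
        have h6 := Real.exp_pos ((1 + δ) * x)
        linarith
    have h5 : ∑ τ ∈ R, ∑ τ' ∈ R, Real.exp ⟪a τ, a τ'⟫_ℝ ≤ ∑ τ ∈ R, ∑ τ' ∈ R,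
        (1 + Real.exp ((1 + δ) * ⟪a τ, a τ'⟫_ℝ)) :=
      Finset.sum_le_sum fun τ _ => Finset.sum_le_sum fun τ' _ => h4 _
    have h6 : ∑ τ ∈ R, ∑ τ' ∈ R, (1 + Real.exp ((1 + δ) * ⟪a τ, a τ'⟫_ℝ)) =
        (R.card : ℝ) ^ 2 + ∑ τ ∈ R, ∑ τ' ∈ R, Real.exp ((1 + δ) * ⟪a τ, a τ'⟫_ℝ) := by
      simp only [Finset.sum_add_distrib, Finset.sum_const, nsmul_eq_mul, mul_one]
      ring
    have h7 : p ^ 2 * (R.card : ℝ) ^ 2 ≤ 1 := by
      rw [← mul_pow]
      exact pow_le_one₀ (by positivity) h2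
    calc p ^ 2 * ∑ τ ∈ R, ∑ τ' ∈ R, Real.exp ⟪a τ, a τ'⟫_ℝ
        ≤ p ^ 2 * ((R.card : ℝ) ^ 2 + ∑ τ ∈ R, ∑ τ' ∈ R,
          Real.exp ((1 + δ) * ⟪a τ, a τ'⟫_ℝ)) := by
          rw [← h6]
          exact mul_le_mul_of_nonneg_left h5 (by positivity)
      _ = p ^ 2 * (R.card : ℝ) ^ 2 + p ^ 2 * ∑ τ ∈ R, ∑ τ' ∈ R,
          Real.exp ((1 + δ) * ⟪a τ, a τ'⟫_ℝ) := by ring
      _ ≤ 1 + M := add_le_add h7 h3
  have hV2 : ∫ g, ‖VV a R p g‖ ^ 2 ∂μ ≤ M / δ := by
    rw [(VV2_int a R p).2]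
    have h4 : ∀ x : ℝ, x * Real.exp x ≤ Real.exp ((1 + δ) * x) / δ := by
      intro x
      rw [le_div_iff₀ hδ]
      have h5 := Real.add_one_le_exp (δ * x)
      have h6 : Real.exp ((1 + δ) * x) = Real.exp x * Real.exp (δ * x) := by
        rw [← Real.exp_add]
        congr 1
        ring
      rw [h6]
      have h7 := Real.exp_pos x
      nlinarith
    have h5 : ∑ τ ∈ R, ∑ τ' ∈ R, ⟪a τ, a τ'⟫_ℝ * Real.exp ⟪a τ, a τ'⟫_ℝ ≤
        (∑ τ ∈ R, ∑ τ' ∈ R, Real.exp ((1 + δ) * ⟪a τ, a τ'⟫_ℝ)) / δ := by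
      rw [Finset.sum_div]
      refine Finset.sum_le_sum fun τ _ => ?_
      rw [Finset.sum_div]
      exact Finset.sum_le_sum fun τ' _ => h4 _
    calc p ^ 2 * ∑ τ ∈ R, ∑ τ' ∈ R, ⟪a τ, a τ'⟫_ℝ * Real.exp ⟪a τ, a τ'⟫_ℝ
        ≤ p ^ 2 * ((∑ τ ∈ R, ∑ τ' ∈ R, Real.exp ((1 + δ) * ⟪a τ, a τ'⟫_ℝ)) / δ) :=
          mul_le_mul_of_nonneg_left h5 (by positivity)
      _ = (p ^ 2 * ∑ τ ∈ R, ∑ τ' ∈ R, Real.exp ((1 + δ) * ⟪a τ, a τ'⟫_ℝ)) / δ := by ring
      _ ≤ M / δ := by gcongr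
  -- Paley-Zygmund
  set A : Set (EE m) := {g | 1 / 4 ≤ ZZ a R p g} with hA
  have hAm : MeasurableSet A := measurableSet_le measurable_const (ZZ_cont a R p).measurable
  have hPZ : 1 / (16 * (1 + M)) ≤ μ.real A := by
    set lam : ℝ := 1 / (4 * (1 + M)) with hlam
    have hlam0 : 0 < lam := by positivity
    have hpt : ∀ g, ZZ a R p g ≤ 1 / 4 + lam / 2 * ZZ a R p g ^ 2 +
        1 / (2 * lam) * A.indicator (fun _ => (1 : ℝ)) g := by
      intro g
      by_cases hg : g ∈ A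
      · rw [Set.indicator_of_mem hg]
        have h4 : 0 ≤ (lam * ZZ a R p g - 1) ^ 2 / (2 * lam) := by positivity
        have h5 : (lam * ZZ a R p g - 1) ^ 2 / (2 * lam) =
            lam / 2 * ZZ a R p g ^ 2 - ZZ a R p g + 1 / (2 * lam) := by
          field_simp
          ring
        rw [h5] at h4
        linarith
      · rw [Set.indicator_of_notMem hg]
        have h4 : ZZ a R p g < 1 / 4 := not_le.1 hg
        have h5 : 0 ≤ lam / 2 * ZZ a R p g ^ 2 := by positivity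
        linarith
    have hi2 : Integrable (fun g => lam / 2 * ZZ a R p g ^ 2) μ := (ZZ2_int a R p).1.const_mul _
    have hi3 : Integrable (fun g => 1 / (2 * lam) * A.indicator (fun _ => (1 : ℝ)) g) μ :=
      ((integrable_const (1 : ℝ)).indicator hAm).const_mul _
    have hi1 : Integrable (fun _ : EE m => (1 / 4 : ℝ)) μ := integrable_const _
    have hG1 : Integrable (fun g => 1 / 4 + lam / 2 * ZZ a R p g ^ 2) μ := hi1.add hi2
    have hG : Integrable (fun g => 1 / 4 + lam / 2 * ZZ a R p g ^ 2 +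
        1 / (2 * lam) * A.indicator (fun _ => (1 : ℝ)) g) μ := hG1.add hi3
    have h4 := integral_mono (ZZ_int a R p).1 hG hpt
    have h5 : ∫ g, (1 / 4 + lam / 2 * ZZ a R p g ^ 2 +
        1 / (2 * lam) * A.indicator (fun _ => (1 : ℝ)) g) ∂μ =
        1 / 4 + lam / 2 * ∫ g, ZZ a R p g ^ 2 ∂μ + 1 / (2 * lam) * μ.real A := by
      rw [integral_add hG1 hi3, integral_add hi1 hi2, integral_const_mul,
        integral_const_mul, integral_indicator hAm, setIntegral_const]
      simp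
    have h6 : p * R.card ≤ 1 / 4 + lam / 2 * ∫ g, ZZ a R p g ^ 2 ∂μ +
        1 / (2 * lam) * μ.real A := by
      rw [← h5, ← (ZZ_int a R p).2]
      exact h4
    have h7 : lam / 2 * ∫ g, ZZ a R p g ^ 2 ∂μ ≤ 1 / 8 := by
      have h8 : lam / 2 * ∫ g, ZZ a R p g ^ 2 ∂μ ≤ lam / 2 * (1 + M) := by gcongr
      have h9 : lam / 2 * (1 + M) = 1 / 8 := by
        rw [hlam]
        field_simp
        norm_num
      linarith
    have h8 : 1 / 8 ≤ 1 / (2 * lam) * μ.real A := by linarith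
    have h9 : 1 / (2 * lam) = 2 * (1 + M) := by
      rw [hlam]
      field_simp
      ring
    rw [h9] at h8
    rw [div_le_iff₀ (by positivity)]
    linarith
  -- the good set
  set Q : ℝ := 512 * M * (1 + M) / δ with hQ
  have hQ0 : 0 < Q := by positivity
  set K : Set (EE m) := {g | 1 / 4 ≤ ZZ a R p g ∧ ‖VV a R p g‖ ≤ √Q * ZZ a R p g} with hK
  have hKc : IsClosed K :=
    (isClosed_le continuous_const (ZZ_cont a R p)).inter
      (isClosed_le (VV_cont a R p).norm (continuous_const.mul (ZZ_cont a R p)))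
  have hKm : 1 / (32 * (1 + M)) ≤ μ.real K := by
    set B : Set (EE m) := {g | Q / 16 ≤ ‖VV a R p g‖ ^ 2} with hB
    have hBm : μ.real B ≤ 1 / (32 * (1 + M)) := by
      have h4 := mul_meas_ge_le_integral_of_nonneg (μ := μ)
        (f := fun g => ‖VV a R p g‖ ^ 2) (Eventually.of_forall fun g => by positivity)
        (VV2_int a R p).1 (Q / 16)
      have h5 : Q / 16 * μ.real B ≤ M / δ := h4.trans hV2
      have h6 : μ.real B ≤ M / δ / (Q / 16) := by
        rw [le_div_iff₀ (by positivity), mul_comm]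
        exact h5
      refine h6.trans (le_of_eq ?_)
      rw [hQ]
      field_simp
      norm_num
    have hsub : A ⊆ K ∪ B := by
      intro g hg
      by_cases h4 : ‖VV a R p g‖ ≤ √Q * ZZ a R p g
      · exact Or.inl ⟨hg, h4⟩
      · refine Or.inr ?_
        show Q / 16 ≤ ‖VV a R p g‖ ^ 2
        have h5 : √Q * (1 / 4) ≤ ‖VV a R p g‖ := by
          refine le_trans ?_ (not_le.1 h4).le
          exact mul_le_mul_of_nonneg_left hg (Real.sqrt_nonneg _)
        have h6 := pow_le_pow_left₀ (by positivity) h5 2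
        rw [mul_pow, Real.sq_sqrt hQ0.le] at h6
        linarith
    have h4 : μ.real A ≤ μ.real K + μ.real B :=
      (measureReal_mono hsub).trans (measureReal_union_le _ _)
    have h5 : 1 / (16 * (1 + M)) = 1 / (32 * (1 + M)) + 1 / (32 * (1 + M)) := by
      field_simp
      norm_num
    linarith
  have hq0 : 0 < 1 / (32 * (1 + M)) := by positivity
  obtain ⟨hdi, hdm⟩ := infDist_mean hKc hq0 hKm
  rw [one_div_one_div] at hdm
  have hne : K.Nonempty := by
    by_contra h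
    rw [Set.not_nonempty_iff_eq_empty] at h
    rw [h, measureReal_empty] at hKm
    linarith
  -- the pointwise bound
  have hpt : ∀ g', -Real.log 4 - √Q * Metric.infDist g' K ≤ F g' := by
    intro g'
    refine le_trans ?_ (hF g')
    obtain ⟨g, hg, hdist⟩ := hKc.exists_infDist_eq_dist hne g'
    rw [hdist]
    have h4 := ZZ_convex a R p hp hR g g'
    have hZg := hZpos g
    have h5 : -(√Q * dist g' g) ≤ ⟪VV a R p g, g' - g⟫_ℝ / ZZ a R p g := by
      rw [le_div_iff₀ hZg]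
      have h6 := abs_real_inner_le_norm (VV a R p g) (g' - g)
      have h7 := neg_abs_le ⟪VV a R p g, g' - g⟫_ℝ
      have h8 : ‖VV a R p g‖ * ‖g' - g‖ ≤ √Q * ZZ a R p g * ‖g' - g‖ :=
        mul_le_mul_of_nonneg_right hg.2 (norm_nonneg _)
      rw [dist_eq_norm]
      nlinarith
    have h6 : Real.exp (-(√Q * dist g' g)) * (1 / 4) ≤ ZZ a R p g' := by
      refine le_trans ?_ h4
      exact mul_le_mul (Real.exp_le_exp.2 h5) hg.1 (by norm_num) (Real.exp_pos _).le
    have h7 := Real.log_le_log (by positivity) h6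
    rw [Real.log_mul (Real.exp_pos _).ne' (by norm_num), Real.log_exp, one_div,
      Real.log_inv] at h7
    linarith
  by_cases hFi : Integrable F μ
  · have h4 : Integrable (fun g' => -Real.log 4 - √Q * Metric.infDist g' K) μ :=
      (integrable_const _).sub (hdi.const_mul _)
    have h5 := integral_mono h4 hFi hpt
    refine le_trans ?_ h5
    rw [integral_sub (integrable_const _) (hdi.const_mul _), integral_const_mul,
      integral_const, probReal_univ, smul_eq_mul, one_mul]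
    have h6 : √Q * ∫ g, Metric.infDist g K ∂μ ≤ √Q * (32 * (1 + M)) :=
      mul_le_mul_of_nonneg_left hdm (Real.sqrt_nonneg _)
    linarith
  · rw [integral_undef hFi]
    have h4 : 0 ≤ Real.log 4 := Real.log_nonneg (by norm_num)
    have h5 : 0 ≤ √Q * (32 * (1 + M)) := by positivity
    linarith

/-! ### The law of the energies -/

open Pool.Agent.H964.DP

/-- sums of independent centred Gaussian variables -/
theorem sum_gauss {γ : Measure (V → ℝ)} [IsProbabilityMeasure γ] (Y : ℕ → (V → ℝ) → ℝ)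
    (hY : ∀ k, Measurable (Y k)) (v : ℕ → ℝ≥0) (hv : ∀ k, γ.map (Y k) = gaussianReal 0 (v k))
    (n : ℕ) :
    (PP γ).map (fun w => ∑ k ∈ range n, Y k (w k)) = gaussianReal 0 (∑ k ∈ range n, v k) := by
  have hind : iIndepFun (fun k (w : ℕ → V → ℝ) => Y k (w k)) (PP γ) :=
    iIndepFun_infinitePi (P := fun _ : ℕ => γ) hY
  have hm : ∀ k, Measurable (fun w : ℕ → V → ℝ => Y k (w k)) := fun k =>
    (hY k).comp (measurable_pi_apply k)
  have hprob : IsProbabilityMeasure (PP γ) := by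
    unfold PP
    infer_instance
  induction n with
  | zero =>
    simp only [range_zero, sum_empty]
    rw [Measure.map_const, measure_univ, one_smul, gaussianReal_zero_var]
  | succ n ih =>
    have h1 : (fun w : ℕ → V → ℝ => ∑ k ∈ range (n + 1), Y k (w k)) =
        (∑ k ∈ range n, fun w : ℕ → V → ℝ => Y k (w k)) + fun w => Y n (w n) := by
      ext w
      rw [Pi.add_apply, Finset.sum_apply, sum_range_succ]
    have h2 : (PP γ).map (∑ k ∈ range n, fun w : ℕ → V → ℝ => Y k (w k)) =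
        gaussianReal 0 (∑ k ∈ range n, v k) := by
      rw [← ih]
      congr 1
      ext w
      rw [Finset.sum_apply]
    have h3 : (PP γ).map (fun w : ℕ → V → ℝ => Y n (w n)) = gaussianReal 0 (v n) := by
      rw [← hv n]
      have h4 : (PP γ).map (fun w : ℕ → V → ℝ => w n) = γ :=
        Measure.infinitePi_map_eval (fun _ : ℕ => γ) n
      have h5 : (fun w : ℕ → V → ℝ => Y n (w n)) = Y n ∘ fun w : ℕ → V → ℝ => w n := rfl
      rw [h5, ← Measure.map_map (hY n) (measurable_pi_apply n), h4]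
    rw [h1, gaussianReal_add_gaussianReal_of_indepFun (hind.indepFun_sum_range_succ hm n) h2 h3,
      add_zero, sum_range_succ]

/-- sums over the fibres -/
theorem fib {I : Type} [Fintype I] (f : I → V) (b : I → ℝ) (G : V → ℝ) :
    ∑ x ∈ univ.image f, (∑ τ ∈ univ.filter (fun τ => f τ = x), b τ) * G x =
      ∑ τ, b τ * G (f τ) := by
  rw [← Finset.sum_fiberwise_of_maps_to (s := univ) (t := univ.image f) (g := f)
    (fun τ _ => mem_image_of_mem f (mem_univ τ)) (fun τ => b τ * G (f τ))]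
  refine Finset.sum_congr rfl fun x _ => ?_
  rw [Finset.sum_mul]
  refine Finset.sum_congr rfl fun τ hτ => ?_
  rw [(mem_filter.1 hτ).2]

/-- the law of a linear functional of a slice -/
theorem slice_law {γ : Measure (V → ℝ)} {h : V → ℝ} (hγ : GS γ h) {I : Type} [Fintype I]
    (f : I → V) (b : I → ℝ) :
    0 ≤ ∑ τ, ∑ τ', b τ * b τ' * h (f τ - f τ') ∧
    γ.map (fun s => ∑ τ, b τ * s (f τ)) =
      gaussianReal 0 (Real.toNNReal (∑ τ, ∑ τ', b τ * b τ' * h (f τ - f τ'))) := by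
  set S : Finset V := univ.image f with hS
  set c : V → ℝ := fun x => ∑ τ ∈ univ.filter (fun τ => f τ = x), b τ with hc
  have h1 : ∑ x ∈ S, ∑ y ∈ S, c x * c y * h (x - y) =
      ∑ τ, ∑ τ', b τ * b τ' * h (f τ - f τ') := by
    have h2 : ∀ x, ∑ y ∈ S, c x * c y * h (x - y) = c x * ∑ τ', b τ' * h (x - f τ') := by
      intro x
      rw [← fib f b (fun y => h (x - y)), Finset.mul_sum]
      refine Finset.sum_congr rfl fun y _ => ?_
      ring
    rw [Finset.sum_congr rfl fun x _ => h2 x, fib f b (fun x => ∑ τ', b τ' * h (x - f τ'))]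
    refine Finset.sum_congr rfl fun τ _ => ?_
    rw [Finset.mul_sum]
    refine Finset.sum_congr rfl fun τ' _ => ?_
    ring
  refine ⟨h1 ▸ hγ.psd S c, ?_⟩
  rw [← h1, ← hγ.lin S c]
  congr 1
  ext s
  exact (fib f b s).symm

/-- the energy of a path -/
noncomputable def HH {n : ℕ} (w : ℕ → V → ℝ) (τ : Fin n → Fin 4) : ℝ :=
  ∑ k ∈ range n, w k (pos τ (k + 1))

/-- the overlap of two paths -/
noncomputable def CC {n : ℕ} (h : V → ℝ) (τ τ' : Fin n → Fin 4) : ℝ :=
  ∑ k ∈ range n, h (pos τ (k + 1) - pos τ' (k + 1))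

/-- the law of a linear combination of the energies -/
theorem path_law {γ : Measure (V → ℝ)} {h : V → ℝ} (hγ : GS γ h) {n : ℕ}
    (b : (Fin n → Fin 4) → ℝ) :
    0 ≤ ∑ τ, ∑ τ', b τ * b τ' * CC h τ τ' ∧
    (PP γ).map (fun w => ∑ τ, b τ * HH w τ) =
      gaussianReal 0 (Real.toNNReal (∑ τ, ∑ τ', b τ * b τ' * CC h τ τ')) := by
  have := hγ.prob
  set q : ℕ → ℝ := fun k => ∑ τ : Fin n → Fin 4, ∑ τ', b τ * b τ' *
    h (pos τ (k + 1) - pos τ' (k + 1)) with hq
  have hsl := fun k : ℕ => slice_law hγ (fun τ : Fin n → Fin 4 => pos τ (k + 1)) b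
  have hsum : ∑ k ∈ range n, q k = ∑ τ, ∑ τ', b τ * b τ' * CC h τ τ' := by
    rw [hq, Finset.sum_comm]
    refine Finset.sum_congr rfl fun τ _ => ?_
    rw [Finset.sum_comm]
    refine Finset.sum_congr rfl fun τ' _ => ?_
    unfold CC
    rw [Finset.mul_sum]
  have hq0 : ∀ k ∈ range n, 0 ≤ q k := fun k _ => (hsl k).1
  refine ⟨hsum ▸ Finset.sum_nonneg hq0, ?_⟩
  rw [← hsum, Real.toNNReal_sum_of_nonneg hq0]
  have h1 := sum_gauss (γ := γ) (fun k s => ∑ τ : Fin n → Fin 4, b τ * s (pos τ (k + 1)))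
    (fun k => by fun_prop) (fun k => Real.toNNReal (q k)) (fun k => (hsl k).2) n
  rw [← h1]
  congr 1
  ext w
  unfold HH
  rw [Finset.sum_comm]
  refine Finset.sum_congr rfl fun τ _ => ?_
  rw [Finset.mul_sum]

/-- vectors with prescribed inner products -/
theorem repr {γ : Measure (V → ℝ)} {h : V → ℝ} (hγ : GS γ h) (β : ℝ) (n : ℕ) :
    ∃ (m : ℕ) (a : (Fin n → Fin 4) → EE m), ∀ τ τ', ⟪a τ, a τ'⟫_ℝ = β ^ 2 * CC h τ τ' := by
  have hsymm : ∀ τ τ' : Fin n → Fin 4, CC h τ τ' = CC h τ' τ := by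
    intro τ τ'
    unfold CC
    refine Finset.sum_congr rfl fun k _ => ?_
    rw [← hγ.symm, neg_sub]
  have hpsd : (Matrix.of fun τ τ' : Fin n → Fin 4 => β ^ 2 * CC h τ τ').PosSemidef := by
    rw [Matrix.posSemidef_iff_dotProduct_mulVec]
    constructor
    · ext τ τ'
      simp only [Matrix.conjTranspose_apply, Matrix.of_apply, star_trivial]
      rw [hsymm]
    · intro x
      have h1 := (path_law hγ x).1
      have h2 : star x ⬝ᵥ ((Matrix.of fun τ τ' : Fin n → Fin 4 => β ^ 2 * CC h τ τ').mulVec x) =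
          β ^ 2 * ∑ τ, ∑ τ', x τ * x τ' * CC h τ τ' := by
        unfold dotProduct Matrix.mulVec dotProduct
        rw [Finset.mul_sum]
        refine Finset.sum_congr rfl fun τ _ => ?_
        rw [Finset.mul_sum, Finset.mul_sum]
        refine Finset.sum_congr rfl fun τ' _ => ?_
        rw [Pi.star_apply, star_trivial]
        show x τ * ((β ^ 2 * CC h τ τ') * x τ') = _
        ring
      rw [h2]
      exact mul_nonneg (sq_nonneg β) h1
  obtain ⟨m, v, hv⟩ := Matrix.posSemidef_iff_eq_sum_vecMulVec.1 hpsd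
  refine ⟨m, fun τ => WithLp.toLp 2 (fun i => v i τ), fun τ τ' => ?_⟩
  have h1 := congrFun (congrFun hv τ) τ'
  rw [Matrix.of_apply, Matrix.sum_apply] at h1
  rw [h1, PiLp.inner_apply]
  refine Finset.sum_congr rfl fun i _ => ?_
  rw [Matrix.vecMulVec_apply, Pi.star_apply, star_trivial]
  simp only [RCLike.inner_apply, conj_trivial]
  ring

/-- the energies have the law of the inner products with a standard Gaussian vector -/
theorem law_eq {γ : Measure (V → ℝ)} {h : V → ℝ} (hγ : GS γ h) (β : ℝ) (n : ℕ) {m : ℕ}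
    (a : (Fin n → Fin 4) → EE m) (ha : ∀ τ τ', ⟪a τ, a τ'⟫_ℝ = β ^ 2 * CC h τ τ') :
    (PP γ).map (fun w (τ : Fin n → Fin 4) => β * HH w τ) =
      (stdGaussian (EE m)).map (fun g τ => ⟪a τ, g⟫_ℝ) := by
  have := hγ.prob
  have hprob : IsProbabilityMeasure (PP γ) := by
    unfold PP
    infer_instance
  have hm1 : Measurable (fun (w : ℕ → V → ℝ) (τ : Fin n → Fin 4) => β * HH w τ) := by
    unfold HH
    fun_prop
  have hm2 : Measurable (fun (g : EE m) (τ : Fin n → Fin 4) => ⟪a τ, g⟫_ℝ) := by fun_prop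
  have hp1 := Measure.isProbabilityMeasure_map (μ := PP γ) hm1.aemeasurable
  have hp2 := Measure.isProbabilityMeasure_map (μ := stdGaussian (EE m)) hm2.aemeasurable
  refine Measure.ext_of_charFunDual (funext fun L => ?_)
  rw [charFunDual_eq_charFun_map_one, charFunDual_eq_charFun_map_one,
    Measure.map_map L.continuous.measurable hm1, Measure.map_map L.continuous.measurable hm2]
  set b : (Fin n → Fin 4) → ℝ := fun τ => L (fun j => if τ = j then 1 else 0) with hb
  have hL : ∀ x : (Fin n → Fin 4) → ℝ, L x = ∑ τ, b τ * x τ := by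
    intro x
    have h1 := L.toLinearMap.pi_apply_eq_sum_univ x
    rw [show L x = L.toLinearMap x from rfl, h1]
    refine Finset.sum_congr rfl fun τ _ => ?_
    rw [smul_eq_mul, mul_comm]
    rfl
  have e1 : (L : ((Fin n → Fin 4) → ℝ) → ℝ) ∘ (fun (w : ℕ → V → ℝ) (τ : Fin n → Fin 4) =>
      β * HH w τ) = fun w => ∑ τ, (b τ * β) * HH w τ := by
    ext w
    rw [Function.comp_apply, hL]
    refine Finset.sum_congr rfl fun τ _ => ?_
    ring
  have e2 : (L : ((Fin n → Fin 4) → ℝ) → ℝ) ∘ (fun (g : EE m) (τ : Fin n → Fin 4) =>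
      ⟪a τ, g⟫_ℝ) = fun g => ⟪∑ τ, b τ • a τ, g⟫_ℝ := by
    ext g
    rw [Function.comp_apply, hL, sum_inner]
    refine Finset.sum_congr rfl fun τ _ => ?_
    rw [real_inner_smul_left]
  have e3 : ‖∑ τ, b τ • a τ‖ ^ 2 = ∑ τ, ∑ τ', (b τ * β) * (b τ' * β) * CC h τ τ' := by
    rw [← real_inner_self_eq_norm_sq, sum_inner]
    refine Finset.sum_congr rfl fun τ _ => ?_
    rw [inner_sum]
    refine Finset.sum_congr rfl fun τ' _ => ?_
    rw [real_inner_smul_left, real_inner_smul_right, ha]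
    ring
  rw [e1, e2, map_inner, e3, (path_law hγ fun τ => b τ * β).2]

/-- path expansion of the partition function -/
theorem W_exp (hs : S_SIZE) (β : ℝ) (n : ℕ) (w : ℕ → V → ℝ) :
    W β n w 0 = 1 / 4 ^ n * ∑ τ : Fin n → Fin 4, Real.exp (β * HH w τ - n * β ^ 2 / 2) := by
  unfold W
  rw [hs.1]
  rw [div_eq_mul_inv, mul_comm, one_div]
  congr 1
  refine Finset.sum_congr rfl fun τ _ => ?_
  rw [mul_one]
  unfold wt HH
  rw [← Real.exp_sum]
  congr 1
  have h1 : ∀ i : Fin n, β * w i (0 + pos τ (i + 1)) - β ^ 2 / 2 =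
      (fun k : ℕ => β * w k (pos τ (k + 1)) - β ^ 2 / 2) i := by
    intro i
    rw [zero_add]
  rw [Finset.sum_congr rfl fun i _ => h1 i,
    ← Finset.sum_range (fun k : ℕ => β * w k (pos τ (k + 1)) - β ^ 2 / 2),
    Finset.sum_sub_distrib, Finset.mul_sum, Finset.sum_const, card_range, nsmul_eq_mul]
  ring

/-- **GLOW** -/
theorem t_GLOW : S_SIZE → S_GLOW := by
  intro hs M δ hM hδ hδ1
  refine ⟨Real.log 4 + √(512 * M * (1 + M) / δ) * (32 * (1 + M)), ?_⟩
  intro γ h hγ β n R hR1 hR2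
  have := hγ.prob
  obtain ⟨m, a, ha⟩ := repr hγ β n
  set Fl : ((Fin n → Fin 4) → ℝ) → ℝ := fun x =>
    Real.log (1 / 4 ^ n * ∑ τ, Real.exp (x τ - n * β ^ 2 / 2)) with hFl
  have hFm : Measurable Fl := by
    rw [hFl]
    fun_prop
  have hm1 : Measurable (fun (w : ℕ → V → ℝ) (τ : Fin n → Fin 4) => β * HH w τ) := by
    unfold HH
    fun_prop
  have hm2 : Measurable (fun (g : EE m) (τ : Fin n → Fin 4) => ⟪a τ, g⟫_ℝ) := by fun_prop
  have h1 : ∫ w, Real.log (W β n w 0) ∂(PP γ) =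
      ∫ g : EE m, Fl (fun τ => ⟪a τ, g⟫_ℝ) ∂(stdGaussian (EE m)) := by
    have e1 : ∀ w, Real.log (W β n w 0) = Fl (fun τ => β * HH w τ) := by
      intro w
      rw [W_exp hs]
    simp only [e1]
    rw [← integral_map (φ := fun (w : ℕ → V → ℝ) (τ : Fin n → Fin 4) => β * HH w τ)
      (f := Fl) hm1.aemeasurable hFm.aestronglyMeasurable, law_eq hγ β n a ha,
      integral_map hm2.aemeasurable hFm.aestronglyMeasurable]
  rw [h1]
  have h4 : (0 : ℝ) < 4 ^ n := by positivity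
  have hnorm : ∀ τ, ‖a τ‖ ^ 2 = n * β ^ 2 := by
    intro τ
    rw [← real_inner_self_eq_norm_sq, ha]
    unfold CC
    simp only [sub_self, hγ.zero, Finset.sum_const, card_range, nsmul_eq_mul, mul_one]
    ring
  refine glow hM hδ a R (p := 1 / 4 ^ n) (by positivity) ?_ ?_ ?_ _ ?_
  · rw [one_div_mul_eq_div]
    exact hR1
  · rw [one_div_mul_eq_div, div_le_one h4]
    have h5 : R.card ≤ Fintype.card (Fin n → Fin 4) := Finset.card_le_univ R
    rw [Fintype.card_fun, Fintype.card_fin, Fintype.card_fin] at h5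
    exact_mod_cast h5
  · have h5 : (1 / 4 ^ n : ℝ) ^ 2 = 1 / 16 ^ n := by
      rw [div_pow, one_pow, ← pow_mul, mul_comm n 2, pow_mul]
      norm_num
    rw [h5, one_div_mul_eq_div]
    refine le_trans (le_of_eq ?_) hR2
    congr 1
    refine Finset.sum_congr rfl fun τ _ => Finset.sum_congr rfl fun τ' _ => ?_
    rw [ha, ← mul_assoc]
    rfl
  · intro g
    have hRne : R.Nonempty := by
      by_contra h5
      rw [Finset.not_nonempty_iff_eq_empty] at h5
      rw [h5, Finset.card_empty, Nat.cast_zero, zero_div] at hR1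
      norm_num at hR1
    unfold ZZ ee
    refine Real.log_le_log (mul_pos (by positivity)
      (Finset.sum_pos (fun τ _ => Real.exp_pos _) hRne)) ?_
    refine mul_le_mul_of_nonneg_left ?_ (by positivity)
    simp only [hnorm]
    exact Finset.sum_le_sum_of_subset_of_nonneg (Finset.subset_univ R)
      fun τ _ _ => (Real.exp_pos _).le

end Pool.Agent.H401.DP
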